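import Pool.Agent.Q109.Tough.Main

set_option autoImplicit false

namespace Pool.Agent.Results.MP_c98209_co.Classification

open Q109.Tough

/-- A finite co-chordal graph with co-diameter two is non-trivially minimally tough if and only if
it is isomorphic to `T l` for some `l ≥ 1`; and all these graphs `T l` are co-chordal with
co-diameter two and non-trivially minimally tough. -/
theorem result :
    (∀ (V : Type) [Fintype V] (G : SimpleGraph V), IsChordal Gᶜ → CoDiamTwo G →
      (NontrivMinTough G ↔ ∃ l : ℕ, 1 ≤ l ∧ Nonempty (G ≃g T l))) ∧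
    (∀ l : ℕ, 1 ≤ l → IsChordal (T l)ᶜ ∧ CoDiamTwo (T l) ∧ NontrivMinTough (T l)) :=
  ⟨classification, fun l hl => ⟨T_chordal l, T_coDiam l hl, T_nontriv l hl⟩⟩

end Pool.Agent.Results.MP_c98209_co.Classification
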